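import Pool.Agent.Helper62.RE.Bridge

set_option autoImplicit false

/-!
# Powers of elliptic curves: subgroups of finite rank which are not Lehmer groups

`E` is an elliptic curve `y² = x³ + a x + b` with algebraic coefficients, `G = E^n`, embedded in a product
of `n` projective planes, and the line bundle is the restriction of `O(1, …, 1)`, that is the exterior
product of the symmetric ample line bundles `O(3 O)` on the factors. The notions of the problem are
defined in `Pool/Agent/Helper62/RE/Base.lean` (the curve, the Néron-Tate height `ht`, the rank),
`Pool/Agent/Helper62/RE/EDefs.lean` (Zariski closed sets, subvarieties, dimension, degree, obstruction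
index, essential minimum, `K(Γ)`) and `Pool/Agent/Helper62/RE/Main.lean` (torsion subvarieties and
Lehmer groups `LehmerGroup`, literally as in the problem; Lehmer groups `LehmerFor O` with
transversality defined by the homomorphisms `E^n → E` with coefficients in the ring `O`).

The proof. Let `Γ` have finite rank and let `v ≠ 0` be a vector with coefficients in the endomorphism
ring `O` such that the `O`-module generated by the coordinates of the elements of `Γ` has elements `z` of
arbitrarily small height without positive multiples of the form `∑ v_i γ_i`. Let `v_1 ≠ 0`. Choose points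
`S_2, …, S_n` of `E`, linearly independent over `O` modulo this module, and `R_j` with `2^k R_j = S_j`.
The point `P = (z' - ∑ v_j R_j, v_1 R_2, …, v_1 R_n)`, where `v_1 z'` is a multiple of `z`, satisfies
`∑ v_i P_i = v_1 z'`, it is `Γ`-transverse, has height at most `C h(z) + C 4^(-k)` and degree at most
`C 4^(k (n - 1))` over `K(Γ)`. So the product of its height and of the `n`-th root of its degree is small
if `k` is large and then `h(z)` is small. A group of finite rank not finitely generated modulo torsion
has nontorsion elements of arbitrarily small height by the box principle, and if the rank is less than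
`n rk(O)` there is a suitable `v` by linear algebra.
-/

namespace Pool.Agent.Results.MP_187c26_nt.EllipticPowers

open Pool.Agent.Helper62.RE (Qb EPt FinRk)
open Pool.Agent.Helper62.RE.Main
open scoped Classical

/-- **Powers of elliptic curves.** Let `E : y² = x³ + a x + b` be an elliptic curve over the algebraic
numbers and let `O` be a ring of endomorphisms of `E` with the properties `EndProps` (such as the ring
of all endomorphisms of the curve `E`), `n ≥ 1`, `Γ` a subgroup of finite rank of `E^n` and `K` any field
of algebraic numbers containing `a` and `b`. The assertions, see `Assertions`: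

1. If `Γ` is a Lehmer group for `O` over `K`, then for every `v ≠ 0` in `O^n` all elements of
   sufficiently small height of the `O`-module generated by the coordinates of the elements of `Γ`
   have a positive multiple of the form `∑ v_i γ_i` with `γ` in `Γ`.
2. If `Γ` is not finitely generated modulo torsion and has rank less than `n rk(O)`, then `Γ` is not a
   Lehmer group for `O` over `K`.
3. If `Γ` is not finitely generated modulo torsion and there is `v ≠ 0` in `O^n` such that all
   `∑ v_i γ_i` are torsion, then `Γ` is not a Lehmer group for `O` over `K`.
4. If `Γ` is saturated and has positive rank less than `n rk(O)`, then `Γ` is not a Lehmer group for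
   `O` over `K`.
5. If every proper closed subgroup of `E^n` is in the kernel of a homomorphism `E^n → E` given by a
   vector `w ≠ 0` in `O^n` (classical for the ring of all endomorphisms), then every Lehmer group in the
   literal sense is a Lehmer group for `O`. This condition always holds for `n = 1`.

If `n rk(O) ≥ 2`, there is a saturated group of rank one which is not a Lehmer group for `O` over any
field. `EndProps` holds for the ring of integers, of rank one, for a ring of rank two generated by
`(x, y) ↦ (-x, i y)` on `y² = x³ + a x`, and for a ring of rank two generated by `(x, y) ↦ (ω x, y)` on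
`y² = x³ + b`. If `a = 0` or `b = 0`, there is a saturated subgroup of rank one of the curve `E` itself
(`n = 1`) which is not a Lehmer group, literally as in the problem, over any field `K`. -/
theorem result (a b : Qb) (hab : 4 * a ^ 3 + 27 * b ^ 2 ≠ 0) :
    (∀ O : Subring (AddMonoid.End (EPt a b)), EndProps O → ∀ n : ℕ, 1 ≤ n →
      (∀ Γ : AddSubgroup (Fin n → EPt a b), FinRk Γ → ∀ K : IntermediateField ℚ Qb, a ∈ K → b ∈ K →
        Assertions O Γ K) ∧
      (2 ≤ n * rkO O → ExistsRankOne O n)) ∧
    (∀ O : Subring (AddMonoid.End (EPt a b)), SubgroupsInKernels O 1) ∧
    (EndProps (a := a) (b := b) (intRing (EPt a b)) ∧ rkO (intRing (EPt a b)) = 1) ∧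
    (b = 0 → ∃ i : Qb, i ^ 2 = -1 ∧ HasScaling a b (-1) i) ∧
    (a = 0 → ∃ ω : Qb, ω ^ 2 + ω + 1 = 0 ∧ HasScaling a b ω 1) ∧
    (a = 0 ∨ b = 0 → ExistsInCurve a b) :=
  ⟨fun _ hO _ hn => ⟨fun _ hfin _ ha hb =>
      Pool.Agent.Helper62.RE.Bridge.assertions hab hO hn hfin ha hb,
    Pool.Agent.Helper62.RE.Bridge.exists_one hab hO hn⟩,
    fun O => Pool.Agent.Helper62.RE.Bridge.kernels_iff.2
      (Pool.Agent.Helper62.RE.subgroups_one Pool.Agent.Helper62.RE.FIN.main hab O),
    ⟨Pool.Agent.Helper62.RE.endProps_int a b, Pool.Agent.Helper62.RE.rk_int hab⟩,
    Pool.Agent.Helper62.RE.Bridge.gauss hab, Pool.Agent.Helper62.RE.Bridge.eisenstein hab,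
    Pool.Agent.Helper62.RE.Bridge.exists_curve hab⟩

end Pool.Agent.Results.MP_187c26_nt.EllipticPowers
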