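import Pool.Agent.Helper62.RT.Ex
import Pool.Agent.Helper62.RE.RK
import Pool.Agent.Helper62.RE.FG
import Pool.Agent.Helper62.RE.SM
import Pool.Agent.Helper62.RE.SAT

set_option autoImplicit false

/-!
# Subgroups of finite rank of a torus, saturated or not, which are not Lehmer groups

The notions of the problem are defined, for the torus `G` of dimension `n` over the algebraic
numbers, in `Pool/Graph/R_pool_sql_team_seeded_b677cdb8/E8helper9/RM/Defs.lean`: points `Pt n`,
height `hG`, subvarieties `IsSubvariety`, degree `degree`, obstruction index `obstruction`, essential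
minimum `essMin`, the field `coordField K Γ`, torsion subvarieties `IsTorsionVariety`, transversality
`IsTransverse`, Lehmer groups `IsLehmerGroup`, finite rank `FinRk` and rank `rk`. `coordGroup Γ` is the
group generated by the coordinates of the points of `Γ`. `FinGenModTorsion Γ`, defined in
`Pool/Agent/Helper62/RT/Tr.lean`, says that `Γ` is finitely generated modulo torsion.

The construction: if the coordinate group of `Γ` contains numbers `y` of arbitrarily small height no
power of which is a value on `Γ` of the character `v`, then the points of the translates of the kernel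
of `v` with small coordinates, on which `v` has the value `y`, are `Γ`-transverse and have small height
and small degree over `K(Γ)`. A group of finite rank which is not finitely generated modulo torsion
contains nontorsion elements of arbitrarily small height, by Dirichlet's box principle.
-/

namespace Pool.Agent.Results.MP_187c26_nt.NonSaturatedGroups

open Pool.Agent.E8helper9.RM
open Pool.Agent.Helper62.RT
open Pool.Agent.Helper62

lemma height_eq (y : Qbˣ) : Pool.Agent.H58P.ht (y : Qb) = NumberField.absLogHeight₁ (y : Qb) :=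
  (Pool.Agent.H58P.absLogHeight₁_eq _).symm

/-- **Groups of finite rank which are not Lehmer groups.** Let `Γ` be a subgroup of finite rank, not
necessarily saturated, of the torus of dimension `n ≥ 1` and `K` any field of algebraic numbers.

1. If `Γ` is a Lehmer group over `K`, then for every nontrivial character `v` all elements of
   sufficiently small height of the group generated by the coordinates of the points of `Γ` have a
   positive power in the image of `Γ` under `v`.
2. If `Γ` is not finitely generated modulo torsion and has rank less than `n`, then `Γ` is not a Lehmer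
   group over `K`.
3. If `Γ` is not finitely generated modulo torsion and there is a nontrivial character all of whose
   values on `Γ` are roots of unity, then `Γ` is not a Lehmer group over `K`.

If `n ≥ 2`, there is a torsion free group of rank one which is not a Lehmer group over any field. -/
theorem result (n : ℕ) (hn : 1 ≤ n) :
    (∀ Γ : Subgroup (Pt n), FinRk (Additive Γ) → ∀ K : IntermediateField ℚ Qb,
      (IsLehmerGroup K Γ → ∀ v : Fin n → ℤ, v ≠ 0 → ∃ ε : ℝ, 0 < ε ∧ ∀ y ∈ coordGroup Γ,
        NumberField.absLogHeight₁ (y : Qb) < ε →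
          ∃ m : ℕ, 0 < m ∧ ∃ γ ∈ Γ, ∏ i, γ i ^ v i = y ^ m) ∧
      (¬ FinGenModTorsion Γ → rk (Additive Γ) < n → ¬ IsLehmerGroup K Γ) ∧
      (¬ FinGenModTorsion Γ → (∃ v : Fin n → ℤ, v ≠ 0 ∧ ∀ γ ∈ Γ, ∃ m : ℕ, 0 < m ∧
        (∏ i, γ i ^ v i) ^ m = 1) → ¬ IsLehmerGroup K Γ)) ∧
    (2 ≤ n → ∃ Γ : Subgroup (Pt n), rk (Additive Γ) = 1 ∧
      (∀ x ∈ Γ, ∀ m : ℕ, 0 < m → x ^ m = 1 → x = 1) ∧
      ∀ K : IntermediateField ℚ Qb, ¬ IsLehmerGroup K Γ) := by
  have h1 : ∀ Γ : Subgroup (Pt n), FinRk (Additive Γ) → ∀ K : IntermediateField ℚ Qb,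
      IsLehmerGroup K Γ → ∀ v : Fin n → ℤ, v ≠ 0 → ∃ ε : ℝ, 0 < ε ∧ ∀ y ∈ coordGroup Γ,
        NumberField.absLogHeight₁ (y : Qb) < ε →
          ∃ m : ℕ, 0 < m ∧ ∃ γ ∈ Γ, ∏ i, γ i ^ v i = y ^ m := by
    intro Γ hfin K hL v hv
    by_contra hcon
    push Not at hcon
    refine not_lehmer_of_small hn hfin v hv ?_ hL
    intro ε hε
    obtain ⟨y, hy, hyε, h⟩ := hcon ε hε
    exact ⟨y, hy, by rwa [height_eq], fun m hm γ hγ => h m hm γ hγ⟩
  have h2 : ∀ Γ : Subgroup (Pt n), FinRk (Additive Γ) → ∀ K : IntermediateField ℚ Qb,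
      ¬ FinGenModTorsion Γ → rk (Additive Γ) < n → ¬ IsLehmerGroup K Γ := by
    intro Γ hfin K hng hrk
    obtain ⟨v, hv, h⟩ := exists_character RE.RK.main RE.SM.main RE.FG.main hfin hrk hng
    exact not_lehmer_of_small hn hfin v hv h
  refine ⟨fun Γ hfin K => ⟨h1 Γ hfin K, h2 Γ hfin K, ?_⟩, ?_⟩
  · rintro hng ⟨v, hv, htors⟩ hL
    obtain ⟨ε, hε, h⟩ := h1 Γ hfin K hL v hv
    obtain ⟨y, hy, hyt, hyε⟩ := exists_small RE.SM.main RE.FG.main hfin hng ε hε
    obtain ⟨m, hm, γ, hγ, hγy⟩ := h y hy (by rwa [← height_eq])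
    obtain ⟨k, hk, hk1⟩ := htors γ hγ
    rw [hγy, ← pow_mul] at hk1
    exact hyt _ (Nat.mul_pos hm hk) hk1
  · intro hn2
    obtain ⟨Γ, hrk, htf, hsq, hx⟩ := exists_torsionfree hn
    refine ⟨Γ, hrk, htf, fun K => h2 Γ ?_ K (not_finGen RE.SAT.main hsq hx) ?_⟩
    · exact Module.finite_of_finrank_pos (by
        have : Module.finrank ℚ (TensorProduct ℤ ℚ (Additive Γ)) = 1 := hrk
        omega)
    · rw [hrk]
      omega

end Pool.Agent.Results.MP_187c26_nt.NonSaturatedGroups
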