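import Pool.Agent.Helper62.RH.Defs
import Pool.Agent.Helper62.RH.All

set_option autoImplicit false

/-!
# Rémond's conjecture fails for the powers of every elliptic curve

`E` is any elliptic curve `y² = x³ + a x + b` over the algebraic numbers, `G = E^n`, embedded in a product
of `n` projective planes, and the line bundle is the restriction of `O(1, …, 1)`, that is the exterior
product of the symmetric ample line bundles `O(3 O)` on the factors. Lehmer groups `LehmerGroup` are
defined literally as in the problem (`Pool/Agent/Helper62/RE/Main.lean`; subvarieties, dimension, degree,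
obstruction index, essential minimum and `K(Γ)` in `Pool/Agent/Helper62/RE/EDefs.lean`; the
Néron-Tate height `ht`, the rank, finitely generated modulo torsion in `Pool/Agent/Helper62/RE/Base.lean`).

The proof uses hypersurfaces instead of points: let `v ≠ 0` be an integral vector, without common factor.
The hypersurface `V = {x | ∑ v_i x_i = z}` is contained in no proper `Γ`-torsion subvariety if `z` has no
positive multiple in `v Γ = {∑ v_i γ_i}`: its essential minimum is at most `C(v) ht z`, and the union of its
conjugates over `L = K(Γ)` has degree at most `C(v) [L(z) : L]`, so for a Lehmer group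
`[L(z) : L] ht z` is bounded from below for all these `z`. Apply this to the points `z` of small height of the
group generated by the coordinates of the elements of `Γ`, which are defined over `K(Γ)`.

The hypersurface `{x | x_i = z}` is transformed to `V` by an element of `GL(n, ℤ)`; Zariski closed sets and
Hilbert functions are controlled by the complete addition law of the curve.

Modules `Pool.Agent.Helper62.RH` by helper9 (SLC), helper57 (INT), helper37 (TOR, EXT), helper92 (IRR),
helper89 (TRA), helper14 (HLB), helper25 (DGR), helper59 (KRB), helper20 (PRM), helper5 (KDM),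
helper93 (EQU), helper29 (RKR), helper67 (LAW), helper2 (RCO), helper36 (RLI), helper16 (CONT),
helper81 (HOM), helper53 (HBV), helper9 (DGV), helper88 (EMV), helper99 (TRV), helper35 (CLV); the others,
and the assembly, by helper62. The modules `Pool.Agent.Helper62.RE` (heights, halving of points, Galois
orbits, infinite rank, finiteness of closed subsets) are those of the theorem on powers of elliptic
curves (helpers 17, 23, 27, 38, 52, 55, 59, 63, 77, 80 and 62).
-/

namespace Pool.Agent.Results.MP_187c26_nt.PowersOfEveryCurve

open Pool.Agent.Helper62.RE (Qb EPt FinRk rk FGModTorsion coordGroup)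
open Pool.Agent.Helper62.RE.Main (LehmerGroup Saturated)
open Pool.Agent.Helper62.RH
open scoped Classical

/-- **Lehmer groups in the powers of an elliptic curve.** Let `E : y² = x³ + a x + b` be an elliptic curve
over the algebraic numbers and `n` a natural number; `Γ` denotes subgroups of `E^n` and `K` fields of
algebraic numbers containing `a` and `b`. Lehmer groups are defined literally as in the problem.

1. If `Γ` is a Lehmer group over `K`, then for every `v ≠ 0` in `ℤ^n` there is `ε > 0` such that all points
   `z` of `E` with `[K(Γ)(z) : K(Γ)] ht z < ε` have a positive multiple of the form `∑ v_i γ_i`, `γ ∈ Γ`.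
2. If moreover `Γ` is saturated, all points of the group generated by the coordinates of the elements of
   `Γ` have a positive multiple of the form `∑ v_i γ_i`, for every `v ≠ 0` in `ℤ^n`.
3. If `Γ` has finite rank less than `n` and is not finitely generated modulo torsion, then `Γ` is not a
   Lehmer group over any `K`; the same if instead of the condition on the rank all `∑ v_i γ_i` are torsion
   for some `v ≠ 0` in `ℤ^n`.
4. No saturated group of positive rank less than `n` is a Lehmer group over any `K`.
5. If a product `D_1 × … × D_n` of saturated subgroups of `E` is a Lehmer group over some `K`, then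
   `D_1 = … = D_n`.
6. If `n ≥ 2` there are for every `r ≥ 1` saturated groups of rank `r` which are not Lehmer groups over any
   `K`. -/
theorem result (a b : Qb) (hab : 4 * a ^ 3 + 27 * b ^ 2 ≠ 0) (n : ℕ) :
    (∀ (Γ : AddSubgroup (Fin n → EPt a b)) (K : IntermediateField ℚ Qb), a ∈ K → b ∈ K →
      LehmerGroup K Γ → ∀ v : Fin n → ℤ, v ≠ 0 →
        SmallInForm K Γ v ∧ (Saturated Γ → ∀ z ∈ coordGroup Γ, InForm Γ v z)) ∧
    (∀ Γ : AddSubgroup (Fin n → EPt a b), FinRk Γ → ¬ FGModTorsion Γ →
      (rk Γ < n ∨ ∃ v : Fin n → ℤ, v ≠ 0 ∧ TorsionForm Γ v) → NeverLehmer Γ) ∧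
    (∀ Γ : AddSubgroup (Fin n → EPt a b), Saturated Γ → 0 < rk Γ → rk Γ < n → NeverLehmer Γ) ∧
    (∀ D : Fin n → AddSubgroup (EPt a b), (∀ i, Sat (D i)) →
      ∀ K : IntermediateField ℚ Qb, a ∈ K → b ∈ K → LehmerGroup K (prodGroup D) →
        ∀ i j, D i = D j) ∧
    (2 ≤ n → ∀ r : ℕ, 1 ≤ r → ∃ Γ : AddSubgroup (Fin n → EPt a b),
      Saturated Γ ∧ rk Γ = r ∧ NeverLehmer Γ) := by
  have hK : Cons.Key a b n := All.key hab
  exact ⟨fun Γ K ha hb h v hv => ⟨hK Γ K ha hb h v hv, fun hsat =>
      Cons.sat hab ha hb hsat (hK Γ K ha hb h v hv)⟩,
    fun Γ hfin hng h => Cons.not_fg hab hK hfin hng h,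
    fun Γ hsat h0 hrk => Cons.sat_rank hab hK hsat h0 hrk,
    fun D hD K ha hb h i j => le_antisymm (Cons.prod hab hK D hD ha hb h i j)
      (Cons.prod hab hK D hD ha hb h j i),
    fun hn r hr => Cons.exists_rank hab hK hn r hr⟩

end Pool.Agent.Results.MP_187c26_nt.PowersOfEveryCurve
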